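import Mathlib

/-!
# A convex colouring of `(ZMod M)^d`

`E a = q ^ d * |a|^2 + (pattern of a mod q)`, where `|a|^2` is the sum of the squares of the
representatives in `[0, M)`.  If `q` is invertible modulo `M`, `e + (q - 1) c = q y`, `c ≠ e` and
`E c = E e`, then `E y < E c`.
-/

set_option autoImplicit false

namespace Pool.Agent.LF27

open Finset

variable {d M q : ℕ}

/-- The squared norm of the vector of representatives. -/
def sq (a : Fin d → ZMod M) : ℕ := ∑ j, (a j).val ^ 2

/-- The pattern of the representatives modulo `q`. -/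
def pat (hq : 0 < q) (a : Fin d → ZMod M) : Fin d → Fin q :=
  fun j => ⟨(a j).val % q, Nat.mod_lt _ hq⟩

/-- The convex colouring. -/
def E (hq : 0 < q) (a : Fin d → ZMod M) : ℕ :=
  q ^ d * sq a + (finFunctionFinEquiv (pat hq a) : ℕ)

theorem E_lt (hq : 0 < q) [NeZero M] (a : Fin d → ZMod M) :
    E hq a < q ^ d * (sq a + 1) := by
  unfold E
  have := (finFunctionFinEquiv (pat hq a)).isLt
  rw [mul_add, mul_one]
  omega

theorem le_E (hq : 0 < q) (a : Fin d → ZMod M) : q ^ d * sq a ≤ E hq a := by
  unfold E; omega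

theorem sq_le [NeZero M] (a : Fin d → ZMod M) : sq a ≤ d * M ^ 2 := by
  unfold sq
  calc ∑ j, (a j).val ^ 2 ≤ ∑ _j : Fin d, M ^ 2 :=
        Finset.sum_le_sum fun j _ => Nat.pow_le_pow_left (ZMod.val_lt (a j)).le 2
    _ = d * M ^ 2 := by simp

theorem E_bound (hq : 0 < q) [NeZero M] (a : Fin d → ZMod M) :
    E hq a < q ^ d * (d * M ^ 2 + 1) :=
  (E_lt hq a).trans_le (Nat.mul_le_mul_left _ (by have := sq_le a; omega))

theorem E_eq (hq : 0 < q) {a b : Fin d → ZMod M} (h : E hq a = E hq b) :
    sq a = sq b ∧ pat hq a = pat hq b := by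
  unfold E at h
  have ha := (finFunctionFinEquiv (pat hq a)).isLt
  have hb := (finFunctionFinEquiv (pat hq b)).isLt
  set A : ℕ := (finFunctionFinEquiv (pat hq a) : ℕ) with hA
  set B : ℕ := (finFunctionFinEquiv (pat hq b) : ℕ) with hB
  have hpos : 0 < q ^ d := pow_pos hq d
  have h1 : sq a = sq b := by
    have h2 : (q ^ d * sq a + A) / q ^ d = (q ^ d * sq b + B) / q ^ d := by rw [h]
    rw [Nat.mul_add_div hpos, Nat.mul_add_div hpos, Nat.div_eq_of_lt ha, Nat.div_eq_of_lt hb] at h2
    simpa using h2
  refine ⟨h1, ?_⟩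
  rw [h1] at h
  have h3 : A = B := by omega
  exact finFunctionFinEquiv.injective (Fin.ext h3)

theorem E_key (hq : 1 < q) [NeZero M] (hco : Nat.Coprime q M)
    {c e y : Fin d → ZMod M} (hce : c ≠ e) (hE : E (zero_lt_one.trans hq) c = E (zero_lt_one.trans hq) e)
    (hy : ∀ j, e j + ((q : ZMod M) - 1) * c j = (q : ZMod M) * y j) :
    E (zero_lt_one.trans hq) y < E (zero_lt_one.trans hq) c := by
  obtain ⟨hs, hp⟩ := E_eq _ hE
  have hq0 : 0 < q := zero_lt_one.trans hq
  have hMpos : 0 < M := Nat.pos_of_ne_zero (NeZero.ne M)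
  -- the representative of `y j`
  have hrep : ∀ j, (q : ℤ) * ((y j).val : ℤ) = (e j).val + ((q : ℤ) - 1) * (c j).val := by
    intro j
    have hmod : (c j).val % q = (e j).val % q := by
      have := congrFun hp j
      simpa [pat] using congrArg Fin.val this
    -- integer w with q w = e + (q-1) c
    have hdvd : (q : ℤ) ∣ ((e j).val : ℤ) - (c j).val := by
      have : ((c j).val : ℤ) ≡ (e j).val [ZMOD q] := by
        have h1 : ((c j).val) ≡ (e j).val [MOD q] := hmod
        exact (Int.natCast_modEq_iff).2 h1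
      exact this.dvd
    obtain ⟨t, ht⟩ := hdvd
    set w : ℤ := (c j).val + t with hw
    have hqw : (q : ℤ) * w = (e j).val + ((q : ℤ) - 1) * (c j).val := by
      rw [hw]; linear_combination (-1 : ℤ) * ht
    have hw0 : 0 ≤ w := by
      by_contra hneg
      push Not at hneg
      have h1 : (q : ℤ) * w < 0 := mul_neg_of_pos_of_neg (by exact_mod_cast hq0) hneg
      have h2 : (0 : ℤ) ≤ (e j).val + ((q : ℤ) - 1) * (c j).val := by
        have : (0 : ℤ) ≤ (q : ℤ) - 1 := by have : (1 : ℤ) < q := by exact_mod_cast hq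
                                           omega
        positivity
      omega
    have hcM : ((c j).val : ℤ) < M := by exact_mod_cast ZMod.val_lt (c j)
    have heM : ((e j).val : ℤ) < M := by exact_mod_cast ZMod.val_lt (e j)
    have hwM : w < M := by
      by_contra hge
      push Not at hge
      have h1 : (q : ℤ) * M ≤ (q : ℤ) * w := mul_le_mul_of_nonneg_left hge (by positivity)
      have hq1 : (0 : ℤ) < (q : ℤ) - 1 := by have : (1 : ℤ) < q := by exact_mod_cast hq
                                             omega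
      have h3 : ((q : ℤ) - 1) * (c j).val < ((q : ℤ) - 1) * M := mul_lt_mul_of_pos_left hcM hq1
      nlinarith
    obtain ⟨w', hw'⟩ := Int.eq_ofNat_of_zero_le hw0
    have hunit : IsUnit (q : ZMod M) := (ZMod.isUnit_iff_coprime q M).2 hco
    have hcast : ((w' : ℕ) : ZMod M) = y j := by
      have h1 : ((q : ℤ) : ZMod M) * ((w : ℤ) : ZMod M)
          = (((e j).val : ℤ) : ZMod M) + (((q : ℤ) : ZMod M) - 1) * (((c j).val : ℤ) : ZMod M) := by
        have := congrArg (fun z : ℤ => (z : ZMod M)) hqw
        push_cast at this ⊢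
        exact this
      have h2 : (q : ZMod M) * (w' : ZMod M) = (q : ZMod M) * y j := by
        rw [← hy j]
        rw [hw'] at h1
        simpa using h1
      exact hunit.mul_left_cancel h2
    have hval : (y j).val = w' := by
      rw [← hcast, ZMod.val_natCast, Nat.mod_eq_of_lt]
      have : (w' : ℤ) < M := by rw [hw'] at hwM; simpa using hwM
      exact_mod_cast this
    rw [hval]
    have : (w' : ℤ) = w := by rw [hw']
    rw [this]; exact hqw
  -- the strict convexity
  have hsq : sq y < sq c := by
    have hq2 : (0 : ℤ) < (q : ℤ) ^ 2 := by positivity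
    have hident : (q : ℤ) ^ 2 * (sq y : ℤ)
        = ((q : ℤ) - 1) ^ 2 * (sq c : ℤ) + ((q : ℤ) - 1) * ((sq c : ℤ) + (sq e : ℤ)
            - ∑ j, (((e j).val : ℤ) - (c j).val) ^ 2) + (sq e : ℤ) := by
      unfold sq
      push_cast
      rw [Finset.mul_sum, Finset.mul_sum, ← Finset.sum_add_distrib, ← Finset.sum_sub_distrib,
        Finset.mul_sum, ← Finset.sum_add_distrib, ← Finset.sum_add_distrib]
      refine Finset.sum_congr rfl fun j _ => ?_
      have := hrep j
      have h2 : ((q : ℤ) * ((y j).val : ℤ)) ^ 2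
          = ((e j).val + ((q : ℤ) - 1) * (c j).val) ^ 2 := by rw [this]
      linear_combination h2
    have hdiff : 0 < ∑ j, (((e j).val : ℤ) - (c j).val) ^ 2 := by
      obtain ⟨j, hj⟩ := Function.ne_iff.1 hce
      refine Finset.sum_pos' (fun i _ => sq_nonneg _) ⟨j, Finset.mem_univ j, ?_⟩
      have hne : ((e j).val : ℤ) - (c j).val ≠ 0 := by
        intro h0
        apply hj
        have : (c j).val = (e j).val := by omega
        exact ZMod.val_injective M this
      positivity
    have hs' : (sq e : ℤ) = sq c := by exact_mod_cast hs.symm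
    have hq1 : (0 : ℤ) < (q : ℤ) - 1 := by have : (1 : ℤ) < q := by exact_mod_cast hq
                                           omega
    have hlt : (q : ℤ) ^ 2 * (sq y : ℤ) < (q : ℤ) ^ 2 * (sq c : ℤ) := by
      rw [hident, hs']
      have := mul_pos hq1 hdiff
      nlinarith
    have := lt_of_mul_lt_mul_left hlt hq2.le
    exact_mod_cast this
  calc E _ y < q ^ d * (sq y + 1) := E_lt _ y
    _ ≤ q ^ d * sq c := Nat.mul_le_mul_left _ hsq
    _ ≤ E _ c := le_E _ c

end Pool.Agent.LF27
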