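import Mathlib

/-!
# Windows of length `L`: some window catches many points; choice of the parameters
-/

set_option autoImplicit false

namespace Pool.Agent.LF27

open Finset

/-- Some window of length `L` of `v` catches at least `L |B| / (2 r + L K' + 1)` points. -/
theorem exists_window {X : Type*} [Fintype X] (B : Finset X) (s v : X → ℕ) (L K' : ℕ)
    (μ r : ℝ) (hr : 0 ≤ r) (hμ : 0 ≤ μ)
    (hs : ∀ x ∈ B, μ - r < s x ∧ (s x : ℝ) < μ + r)
    (hv : ∀ x ∈ B, s x + L ≤ v x ∧ v x ≤ s x + L * K') :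
    ∃ s₀ : ℕ, (L : ℝ) * B.card
      ≤ ((univ.filter fun x => s₀ ≤ v x ∧ v x < s₀ + L).card : ℝ) * (2 * r + L * K' + 1) := by
  classical
  set lo : ℕ := ⌈μ - r⌉₊ with hlo
  set hi : ℕ := ⌊μ + r + L * K'⌋₊ with hhi
  set J : Finset ℕ := Finset.Icc lo hi with hJ
  have hnn : 0 ≤ μ + r + (L : ℝ) * K' := by positivity
  have hJcard : (J.card : ℝ) ≤ 2 * r + L * K' + 1 := by
    rw [hJ, Nat.card_Icc]
    rcases le_or_gt lo (hi + 1) with hle | hgt
    · rw [Nat.cast_sub hle]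
      have h1 : μ - r ≤ lo := Nat.le_ceil _
      have h2 : (hi : ℝ) ≤ μ + r + L * K' := Nat.floor_le hnn
      push_cast
      linarith
    · rw [Nat.sub_eq_zero_of_le hgt.le]
      push_cast
      positivity
  by_contra hcon
  push Not at hcon
  have hwin : ∀ x ∈ B, (J.filter fun s₀ => s₀ ≤ v x ∧ v x < s₀ + L).card = L := by
    intro x hx
    have h1 := hs x hx
    have h2 := hv x hx
    have heq : (J.filter fun s₀ => s₀ ≤ v x ∧ v x < s₀ + L) = Finset.Ioc (v x - L) (v x) := by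
      ext s₀
      rw [Finset.mem_filter, Finset.mem_Ioc, hJ, Finset.mem_Icc]
      constructor
      · rintro ⟨_, h3, h4⟩
        omega
      · rintro ⟨h3, h4⟩
        refine ⟨⟨?_, ?_⟩, h4, by omega⟩
        · rw [hlo, Nat.ceil_le]
          have : (s x : ℝ) ≤ s₀ := by exact_mod_cast (by omega : s x ≤ s₀)
          linarith [h1.1]
        · rw [hhi]
          apply Nat.le_floor
          have h5 : (s₀ : ℝ) ≤ s x + L * K' := by exact_mod_cast (by omega : s₀ ≤ s x + L * K')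
          linarith [h1.2]
    rw [heq, Nat.card_Ioc]
    omega
  have hdouble : ∑ s₀ ∈ J, (B.filter fun x => s₀ ≤ v x ∧ v x < s₀ + L).card = L * B.card := by
    have := Finset.sum_card_bipartiteAbove_eq_sum_card_bipartiteBelow
      (s := J) (t := B) (fun (s₀ : ℕ) (x : X) => s₀ ≤ v x ∧ v x < s₀ + L)
    unfold Finset.bipartiteAbove Finset.bipartiteBelow at this
    rw [this, Finset.sum_congr rfl hwin, Finset.sum_const, smul_eq_mul, mul_comm]
  rcases Nat.eq_zero_or_pos (L * B.card) with h0 | hpos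
  · have := hcon 0
    have h0' : (L : ℝ) * B.card = 0 := by exact_mod_cast h0
    rw [h0'] at this
    have h1 : 0 ≤ ((univ.filter fun x => 0 ≤ v x ∧ v x < 0 + L).card : ℝ) * (2 * r + L * K' + 1) := by
      positivity
    linarith
  · have hJne : J.Nonempty := by
      by_contra hne
      rw [Finset.not_nonempty_iff_eq_empty] at hne
      rw [hne] at hdouble
      simp only [Finset.sum_empty] at hdouble
      omega
    have hbig : (∑ s₀ ∈ J, ((B.filter fun x => s₀ ≤ v x ∧ v x < s₀ + L).card : ℝ))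
        = (L : ℝ) * B.card := by exact_mod_cast hdouble
    have hden : 0 < 2 * r + (L : ℝ) * K' + 1 := by positivity
    have hlt : (∑ s₀ ∈ J, ((B.filter fun x => s₀ ≤ v x ∧ v x < s₀ + L).card : ℝ))
        < ∑ _s₀ ∈ J, ((L : ℝ) * B.card / (2 * r + L * K' + 1)) := by
      refine Finset.sum_lt_sum_of_nonempty hJne fun s₀ _ => ?_
      rw [lt_div_iff₀ hden]
      refine lt_of_le_of_lt ?_ (hcon s₀)
      refine mul_le_mul_of_nonneg_right ?_ hden.le
      exact_mod_cast Finset.card_le_card (Finset.filter_subset_filter _ (Finset.subset_univ B))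
    rw [hbig, Finset.sum_const, nsmul_eq_mul] at hlt
    have hle : (J.card : ℝ) * ((L : ℝ) * B.card / (2 * r + L * K' + 1)) ≤ (L : ℝ) * B.card := by
      rw [mul_div_assoc', div_le_iff₀ hden, mul_comm]
      exact mul_le_mul_of_nonneg_left hJcard (by positivity)
    linarith

/-- Integer eighth root. -/
theorem exists_root (m : ℕ) : ∃ u : ℕ, u ^ 8 ≤ m ∧ m < (u + 1) ^ 8 := by
  have hex : ∃ u : ℕ, m < (u + 1) ^ 8 := by
    refine ⟨m, ?_⟩
    calc m < m + 1 := Nat.lt_succ_self m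
      _ = (m + 1) ^ 1 := (pow_one _).symm
      _ ≤ (m + 1) ^ 8 := Nat.pow_le_pow_right (Nat.succ_pos m) (by norm_num)
  classical
  refine ⟨Nat.find hex, ?_, Nat.find_spec hex⟩
  rcases Nat.eq_zero_or_pos (Nat.find hex) with h | h
  · rw [h]; simp
  · have := Nat.find_min hex (m := Nat.find hex - 1) (by omega)
    push Not at this
    rwa [Nat.sub_add_cancel h] at this

/-- Choice of the modulus. -/
theorem exists_modulus (q d L : ℕ) (hq : 0 < q) :
    ∃ N : ℕ, ∀ n : ℕ, N ≤ n → 0 < n ∧ ∃ M : ℕ, 0 < M ∧ Nat.Coprime q M ∧ 2 * n + 1 < M ^ 8 ∧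
      (L : ℝ) * ((q ^ d * (d * M ^ 2 + 1) : ℕ) : ℝ) + 1 ≤ Real.sqrt n := by
  set C : ℕ := L * (q ^ d * (16 * d * q ^ 2 + 1)) + 1 with hC
  refine ⟨(2 * C ^ 2 + 1) ^ 8, fun n hn => ?_⟩
  have hn0 : 0 < n := lt_of_lt_of_le (by positivity) hn
  refine ⟨hn0, ?_⟩
  obtain ⟨u, hu1, hu2⟩ := exists_root (2 * n + 1)
  have huC : 2 * C ^ 2 + 1 ≤ u := by
    by_contra hlt
    push Not at hlt
    have : (u + 1) ^ 8 ≤ (2 * C ^ 2 + 1) ^ 8 := Nat.pow_le_pow_left (by omega) 8
    omega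
  have hu0 : 1 ≤ u := by omega
  refine ⟨q * (u + 1) + 1, by positivity, ?_, ?_, ?_⟩
  · exact (Nat.coprime_mul_left_add_right q 1 (u + 1)).2 (Nat.coprime_one_right q)
  · refine hu2.trans_le (Nat.pow_le_pow_left ?_ 8)
    nlinarith
  · have hM : (q * (u + 1) + 1) ^ 2 ≤ 16 * q ^ 2 * u ^ 2 := by
      have h1 : q * (u + 1) + 1 ≤ 4 * q * u := by nlinarith
      calc (q * (u + 1) + 1) ^ 2 ≤ (4 * q * u) ^ 2 := Nat.pow_le_pow_left h1 2
        _ = 16 * q ^ 2 * u ^ 2 := by ring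
    have hu2' : 1 ≤ u ^ 2 := Nat.one_le_pow _ _ hu0
    have hmain : L * (q ^ d * (d * (q * (u + 1) + 1) ^ 2 + 1)) + 1 ≤ C * u ^ 2 := by
      calc L * (q ^ d * (d * (q * (u + 1) + 1) ^ 2 + 1)) + 1
          ≤ L * (q ^ d * (d * (16 * q ^ 2 * u ^ 2) + u ^ 2)) + u ^ 2 := by gcongr
        _ = C * u ^ 2 := by rw [hC]; ring
    have hsq : (C * u ^ 2) ^ 2 ≤ n := by
      have h1 : (2 * C ^ 2 + 1) * u ^ 4 ≤ u ^ 8 := by
        calc (2 * C ^ 2 + 1) * u ^ 4 ≤ u * u ^ 4 := Nat.mul_le_mul_right _ huC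
          _ = u ^ 5 := by ring
          _ ≤ u ^ 8 := Nat.pow_le_pow_right hu0 (by norm_num)
      have h2 : 1 ≤ u ^ 4 := Nat.one_le_pow _ _ hu0
      have h3 : (C * u ^ 2) ^ 2 = C ^ 2 * u ^ 4 := by ring
      rw [h3]
      nlinarith
    have hreal : ((C * u ^ 2 : ℕ) : ℝ) ≤ Real.sqrt n := by
      apply Real.le_sqrt_of_sq_le
      exact_mod_cast hsq
    refine le_trans ?_ hreal
    exact_mod_cast hmain

end Pool.Agent.LF27
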