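import Mathlib

/-!
# `k` collinear points of `{0,…,k-1}^n`
-/

set_option autoImplicit false

namespace Pool.Agent.LF27

open Finset

/-- The value embedding into real space. -/
def emb {n k : ℕ} (x : Fin n → Fin k) (i : Fin n) : ℝ := (((x i : ℕ)) : ℝ)

theorem emb_injective {n k : ℕ} : Function.Injective (emb (n := n) (k := k)) := by
  intro x y h
  funext i
  have := congrFun h i
  simp only [emb, Nat.cast_inj] at this
  exact Fin.ext this

theorem strictMono_eq_id {k : ℕ} (f : Fin k → Fin k) (hf : StrictMono f) : f = id := by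
  have hs : Function.Surjective f := Finite.surjective_of_injective hf.injective
  refine (StrictMono.range_inj hf strictMono_id).1 ?_
  rw [hs.range_eq, Set.range_id]

theorem strictAnti_eq_rev {k : ℕ} (f : Fin k → Fin k) (hf : StrictAnti f) : f = Fin.rev := by
  have h := strictMono_eq_id (fun i => (f i).rev) (fun a b hab => Fin.rev_lt_rev.2 (hf hab))
  funext i
  have := congrFun h i
  simp only [id] at this
  rw [← Fin.rev_rev (f i), this]

/-- `k ≥ 3` distinct collinear points of `{0,…,k-1}^n` contain the first, the second and the last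
point of a geometric line. -/
theorem line_of_collinear {n k : ℕ} (hk : 3 ≤ k) (T : Finset (Fin n → Fin k)) (hT : T.card = k)
    (hcol : Collinear ℝ (emb '' (T : Set (Fin n → Fin k)))) :
    ∃ x₀ ∈ T, ∃ x₁ ∈ T, ∃ x₂ ∈ T, ∃ ε : Fin n → ℤ, (∃ i, ε i ≠ 0) ∧
      ∀ i, (ε i = 0 ∧ x₁ i = x₀ i ∧ x₂ i = x₀ i) ∨
        (ε i = 1 ∧ (x₀ i : ℕ) = 0 ∧ (x₁ i : ℕ) = 1 ∧ (x₂ i : ℕ) = k - 1) ∨
        (ε i = -1 ∧ (x₀ i : ℕ) = k - 1 ∧ (x₁ i : ℕ) = k - 2 ∧ (x₂ i : ℕ) = 0) := by
  classical
  rw [collinear_iff_exists_forall_eq_smul_vadd] at hcol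
  obtain ⟨p₀, v, hv⟩ := hcol
  have hv' : ∀ x ∈ T, ∃ r : ℝ, emb x = r • v + p₀ := by
    intro x hx
    obtain ⟨r, hr⟩ := hv (emb x) (Set.mem_image_of_mem _ hx)
    exact ⟨r, by simpa using hr⟩
  choose! t ht using hv'
  have htinj : Set.InjOn t (T : Set (Fin n → Fin k)) := by
    intro x hx y hy hxy
    apply emb_injective
    rw [ht x hx, ht y hy, hxy]
  -- order the points by `t`
  have hcard : (T.image t).card = k := by
    rw [Finset.card_image_of_injOn htinj, hT]
  set o := (T.image t).orderEmbOfFin hcard with ho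
  have hmem : ∀ j : Fin k, ∃ x ∈ T, t x = o j := by
    intro j
    have h1 : o j ∈ T.image t := Finset.orderEmbOfFin_mem (T.image t) hcard j
    exact Finset.mem_image.1 h1
  choose X hXT hXt using hmem
  have hcoord : ∀ (j : Fin k) (i : Fin n), ((X j i : ℕ) : ℝ) = o j * v i + p₀ i := by
    intro j i
    have := congrFun (ht (X j) (hXT j)) i
    simp only [emb, Pi.add_apply, Pi.smul_apply, smul_eq_mul] at this
    rw [this, hXt]
  have homono : StrictMono o := o.strictMono
  have hzero : ∀ i, v i = 0 → ∀ j j', X j i = X j' i := by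
    intro i hi j j'
    have h1 := hcoord j i
    have h2 := hcoord j' i
    rw [hi] at h1 h2
    apply Fin.ext
    have : ((X j i : ℕ) : ℝ) = ((X j' i : ℕ) : ℝ) := by rw [h1, h2]; ring
    exact_mod_cast this
  have hpos : ∀ i, 0 < v i → ∀ j, X j i = j := by
    intro i hi
    have hm : StrictMono (fun j => X j i) := by
      intro a b hab
      have h1 := hcoord a i
      have h2 := hcoord b i
      have h3 : o a * v i < o b * v i := mul_lt_mul_of_pos_right (homono hab) hi
      have : ((X a i : ℕ) : ℝ) < ((X b i : ℕ) : ℝ) := by rw [h1, h2]; linarith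
      exact_mod_cast this
    have := strictMono_eq_id _ hm
    intro j
    exact congrFun this j
  have hneg : ∀ i, v i < 0 → ∀ j, X j i = Fin.rev j := by
    intro i hi
    have hm : StrictAnti (fun j => X j i) := by
      intro a b hab
      have h1 := hcoord a i
      have h2 := hcoord b i
      have h3 : o b * v i < o a * v i := mul_lt_mul_of_neg_right (homono hab) hi
      have : ((X b i : ℕ) : ℝ) < ((X a i : ℕ) : ℝ) := by rw [h1, h2]; linarith
      exact_mod_cast this
    have := strictAnti_eq_rev _ hm
    intro j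
    exact congrFun this j
  set j0 : Fin k := ⟨0, by omega⟩ with hj0
  set j1 : Fin k := ⟨1, by omega⟩ with hj1
  set j2 : Fin k := ⟨k - 1, by omega⟩ with hj2
  refine ⟨X j0, hXT j0, X j1, hXT j1, X j2, hXT j2,
    fun i => if 0 < v i then 1 else if v i < 0 then -1 else 0, ?_, ?_⟩
  · -- some coordinate varies
    by_contra hcon
    push Not at hcon
    have hv0 : ∀ i, v i = 0 := by
      intro i
      have := hcon i
      by_contra hne
      rcases lt_or_gt_of_ne hne with h | h
      · rw [if_neg (not_lt.2 h.le), if_pos h] at this; omega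
      · rw [if_pos h] at this; omega
    have heq : X j0 = X j1 := funext fun i => hzero i (hv0 i) j0 j1
    have : o j0 = o j1 := by rw [← hXt, ← hXt, heq]
    have := homono.injective this
    rw [hj0, hj1] at this
    simp at this
  · intro i
    rcases lt_trichotomy (v i) 0 with h | h | h
    · right; right
      refine ⟨?_, ?_, ?_, ?_⟩
      · simp only [if_neg (not_lt.2 h.le), if_pos h]
      · rw [hneg i h j0, Fin.val_rev]
      · rw [hneg i h j1, Fin.val_rev]
      · rw [hneg i h j2, Fin.val_rev]; simp only [hj2]; omega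
    · left
      refine ⟨?_, hzero i h _ _, hzero i h _ _⟩
      simp [h]
    · right; left
      refine ⟨?_, ?_, ?_, ?_⟩
      · simp only [if_pos h]
      · rw [hpos i h j0]
      · rw [hpos i h j1]
      · rw [hpos i h j2]

end Pool.Agent.LF27
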