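import Mathlib

/-!
# Second moment of the number of extreme coordinates
-/

set_option autoImplicit false

namespace Pool.Agent.LF27

open Finset

theorem second_moment {α : Type*} [Fintype α] (f : α → ℤ) (hf : ∑ a, f a = 0) (n : ℕ) :
    (Fintype.card α : ℤ) * ∑ x : Fin n → α, (∑ i, f (x i)) ^ 2
      = n * (Fintype.card α : ℤ) ^ n * ∑ a, f a ^ 2 := by
  classical
  induction n with
  | zero => simp
  | succ n ih =>
    have h1 : ∑ x : Fin (n + 1) → α, (∑ i, f (x i)) ^ 2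
        = ∑ a : α, ∑ x : Fin n → α, (f a + ∑ i, f (x i)) ^ 2 := by
      rw [← (Fin.consEquiv (fun _ => α)).sum_comp, Fintype.sum_prod_type]
      refine Finset.sum_congr rfl fun a _ => Finset.sum_congr rfl fun x _ => ?_
      rw [Fin.sum_univ_succ]
      simp [Fin.consEquiv]
    have h2 : ∑ a : α, ∑ x : Fin n → α, (f a + ∑ i, f (x i)) ^ 2
        = (Fintype.card α : ℤ) ^ n * ∑ a, f a ^ 2
          + (Fintype.card α : ℤ) * ∑ x : Fin n → α, (∑ i, f (x i)) ^ 2 := by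
      have h3 : ∀ a : α, ∑ x : Fin n → α, (f a + ∑ i, f (x i)) ^ 2
          = (Fintype.card α : ℤ) ^ n * f a ^ 2 + f a * (2 * ∑ x : Fin n → α, ∑ i, f (x i))
            + ∑ x : Fin n → α, (∑ i, f (x i)) ^ 2 := by
        intro a
        have : ∀ x : Fin n → α, (f a + ∑ i, f (x i)) ^ 2
            = f a ^ 2 + f a * (2 * ∑ i, f (x i)) + (∑ i, f (x i)) ^ 2 := fun x => by ring
        simp only [this]
        rw [Finset.sum_add_distrib, Finset.sum_add_distrib, ← Finset.mul_sum, ← Finset.mul_sum]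
        simp
      simp only [h3]
      rw [Finset.sum_add_distrib, Finset.sum_add_distrib, ← Finset.mul_sum, ← Finset.sum_mul, hf]
      simp
    rw [h1, h2, mul_add, ih]
    push_cast
    ring

/-- A value is extreme if it is `0` or `k - 1`. -/
def Ext (k : ℕ) (v : ℕ) : Prop := v = 0 ∨ v = k - 1

instance (k v : ℕ) : Decidable (Ext k v) := by unfold Ext; infer_instance

/-- The number of extreme coordinates. -/
def ext {n k : ℕ} (x : Fin n → Fin k) : ℕ := (univ.filter fun i => Ext k (x i)).card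

theorem card_ext {k : ℕ} (hk : 2 ≤ k) : (univ.filter fun v : Fin k => Ext k v).card = 2 := by
  have : (univ.filter fun v : Fin k => Ext k v)
      = {(⟨0, by omega⟩ : Fin k), (⟨k - 1, by omega⟩ : Fin k)} := by
    ext v
    rw [Finset.mem_filter, Finset.mem_insert, Finset.mem_singleton, Fin.ext_iff, Fin.ext_iff]
    exact ⟨fun h => h.2, fun h => ⟨Finset.mem_univ v, h⟩⟩
  rw [this, Finset.card_pair]
  intro h
  have := congrArg Fin.val h
  simp at this
  omega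

/-- The centred indicator. -/
def cen (k : ℕ) (v : Fin k) : ℤ := (k : ℤ) * (if Ext k v then 1 else 0) - 2

theorem sum_ind {k : ℕ} (hk : 2 ≤ k) : ∑ v : Fin k, (if Ext k v then (1 : ℤ) else 0) = 2 := by
  rw [Finset.sum_boole, card_ext hk]; rfl

theorem sum_cen {k : ℕ} (hk : 2 ≤ k) : ∑ v, cen k v = 0 := by
  unfold cen
  rw [Finset.sum_sub_distrib, ← Finset.mul_sum, sum_ind hk]
  simp

theorem sum_cen_sq {k : ℕ} (hk : 2 ≤ k) : ∑ v, cen k v ^ 2 = 2 * k * ((k : ℤ) - 2) := by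
  unfold cen
  have : ∀ v : Fin k, ((k : ℤ) * (if Ext k v then 1 else 0) - 2) ^ 2
      = ((k : ℤ) ^ 2 - 4 * k) * (if Ext k v then 1 else 0) + 4 := by
    intro v
    split_ifs <;> ring
  simp only [this]
  rw [Finset.sum_add_distrib, ← Finset.mul_sum, sum_ind hk]
  simp
  ring

theorem sum_cen_apply {n k : ℕ} (x : Fin n → Fin k) :
    ∑ i, cen k (x i) = (k : ℤ) * ext x - 2 * n := by
  unfold cen ext
  rw [Finset.sum_sub_distrib, ← Finset.mul_sum, Finset.sum_boole]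
  simp
  ring

theorem moment {n k : ℕ} (hk : 2 ≤ k) :
    ∑ x : Fin n → Fin k, ((k : ℤ) * ext x - 2 * n) ^ 2 = 2 * n * ((k : ℤ) - 2) * (k : ℤ) ^ n := by
  have h := second_moment (cen k) (sum_cen hk) n
  simp only [sum_cen_apply, Fintype.card_fin, sum_cen_sq hk] at h
  have hk0 : (k : ℤ) ≠ 0 := by
    have : (k : ℤ) > 0 := by exact_mod_cast (by omega : 0 < k)
    exact this.ne'
  apply mul_left_cancel₀ hk0
  rw [h]; ring

/-- The typical points. -/
def typ (n k : ℕ) : Finset (Fin n → Fin k) :=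
  univ.filter fun x => ((k : ℤ) * ext x - 2 * n) ^ 2 < (k : ℤ) ^ 2 * n

theorem card_typ {n k : ℕ} (hk : 2 ≤ k) (hn : 0 < n) : 3 * k ^ n ≤ 4 * (typ n k).card := by
  classical
  have hcompl : (typ n k).card
      + (univ.filter fun x : Fin n → Fin k => ¬ ((k : ℤ) * ext x - 2 * n) ^ 2 < (k : ℤ) ^ 2 * n).card
      = k ^ n := by
    unfold typ
    rw [Finset.card_filter_add_card_filter_not]
    simp
  set Bad := univ.filter fun x : Fin n → Fin k =>
    ¬ ((k : ℤ) * ext x - 2 * n) ^ 2 < (k : ℤ) ^ 2 * n with hBad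
  have h1 : (Bad.card : ℤ) * ((k : ℤ) ^ 2 * n) ≤ 2 * n * ((k : ℤ) - 2) * (k : ℤ) ^ n := by
    rw [← moment hk]
    calc (Bad.card : ℤ) * ((k : ℤ) ^ 2 * n) = ∑ _x ∈ Bad, ((k : ℤ) ^ 2 * n) := by
          rw [Finset.sum_const, nsmul_eq_mul]
      _ ≤ ∑ x ∈ Bad, ((k : ℤ) * ext x - 2 * n) ^ 2 := by
          refine Finset.sum_le_sum fun x hx => ?_
          rw [hBad, Finset.mem_filter] at hx
          exact not_lt.1 hx.2
      _ ≤ ∑ x : Fin n → Fin k, ((k : ℤ) * ext x - 2 * n) ^ 2 :=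
          Finset.sum_le_sum_of_subset_of_nonneg (Finset.subset_univ _) fun _ _ _ => sq_nonneg _
  have hn' : (0 : ℤ) < n := by exact_mod_cast hn
  have hkn : (0 : ℤ) < (k : ℤ) ^ n := by
    have : (0 : ℤ) < k := by exact_mod_cast (by omega : 0 < k)
    positivity
  have hk2 : (0 : ℤ) < (k : ℤ) ^ 2 := by
    have : (0 : ℤ) < k := by exact_mod_cast (by omega : 0 < k)
    positivity
  have h2 : 4 * (Bad.card : ℤ) ≤ (k : ℤ) ^ n := by
    have h3 : (Bad.card : ℤ) * (k : ℤ) ^ 2 ≤ 2 * ((k : ℤ) - 2) * (k : ℤ) ^ n := by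
      refine le_of_mul_le_mul_right ?_ hn'
      calc (Bad.card : ℤ) * (k : ℤ) ^ 2 * n = (Bad.card : ℤ) * ((k : ℤ) ^ 2 * n) := by ring
        _ ≤ _ := h1
        _ = 2 * ((k : ℤ) - 2) * (k : ℤ) ^ n * n := by ring
    have h4 : 8 * ((k : ℤ) - 2) ≤ (k : ℤ) ^ 2 := by nlinarith [sq_nonneg ((k : ℤ) - 4)]
    refine le_of_mul_le_mul_right ?_ hk2
    calc 4 * (Bad.card : ℤ) * (k : ℤ) ^ 2 = 4 * ((Bad.card : ℤ) * (k : ℤ) ^ 2) := by ring
      _ ≤ 4 * (2 * ((k : ℤ) - 2) * (k : ℤ) ^ n) := by linarith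
      _ = 8 * ((k : ℤ) - 2) * (k : ℤ) ^ n := by ring
      _ ≤ (k : ℤ) ^ 2 * (k : ℤ) ^ n := mul_le_mul_of_nonneg_right h4 hkn.le
      _ = (k : ℤ) ^ n * (k : ℤ) ^ 2 := by ring
  have h5 : 4 * Bad.card ≤ k ^ n := by exact_mod_cast h2
  omega

theorem typ_bounds {n k : ℕ} (hk : 0 < k) {x : Fin n → Fin k} (hx : x ∈ typ n k) :
    2 * (n : ℝ) / k - Real.sqrt n < ext x ∧ (ext x : ℝ) < 2 * (n : ℝ) / k + Real.sqrt n := by
  unfold typ at hx
  rw [Finset.mem_filter] at hx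
  have h1 : ((k : ℝ) * ext x - 2 * n) ^ 2 < (k : ℝ) ^ 2 * n := by exact_mod_cast hx.2
  have hk' : (0 : ℝ) < k := by exact_mod_cast hk
  have h2 : ((k : ℝ) * ext x - 2 * n) ^ 2 < ((k : ℝ) * Real.sqrt n) ^ 2 := by
    rw [mul_pow, Real.sq_sqrt (Nat.cast_nonneg n)]; exact h1
  have h3 : |(k : ℝ) * ext x - 2 * n| < (k : ℝ) * Real.sqrt n := by
    have := sq_lt_sq.1 h2
    rwa [abs_of_nonneg (by positivity : (0 : ℝ) ≤ (k : ℝ) * Real.sqrt n)] at this
  rw [abs_lt] at h3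
  have hdiv : 2 * (n : ℝ) / k * k = 2 * n := div_mul_cancel₀ _ hk'.ne'
  constructor
  · refine lt_of_mul_lt_mul_right ?_ hk'.le
    rw [sub_mul, hdiv]
    linarith [h3.1]
  · refine lt_of_mul_lt_mul_right ?_ hk'.le
    rw [add_mul, hdiv]
    linarith [h3.2]

end Pool.Agent.LF27
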