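import Mathlib

/-!
# Weights with no short vanishing signed sum (greedy choice)
-/

set_option autoImplicit false

namespace Pool.Agent.LF27

open Finset Pointwise

/-- The signed sums with at most `m` nonzero terms lie in the `m`-fold sumset of
`{0} ∪ {± g i}`. -/
theorem sum_mem_nsmul {G : Type*} [AddCommGroup G] [DecidableEq G] {n : ℕ} (g : Fin n → G)
    (ε : Fin n → ℤ) (hε : ∀ i, |ε i| ≤ 1) (A : Finset G) (h0 : (0 : G) ∈ A)
    (hA : ∀ i, g i ∈ A ∧ -g i ∈ A) (W : Finset (Fin n)) :
    ∀ m : ℕ, W.card ≤ m → ∑ i ∈ W, ε i • g i ∈ m • A := by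
  classical
  induction W using Finset.induction_on with
  | empty =>
    intro m _
    have h := Finset.nsmul_mem_nsmul (n := m) h0
    rw [smul_zero] at h
    simpa using h
  | insert a s ha ih =>
    intro m hm
    rw [Finset.card_insert_of_notMem ha] at hm
    obtain ⟨m', rfl⟩ : ∃ m', m = m' + 1 := ⟨m - 1, by omega⟩
    rw [Finset.sum_insert ha, add_comm (ε a • g a), succ_nsmul]
    refine Finset.add_mem_add (ih m' (by omega)) ?_
    have h1 := hε a
    have h2 : ε a = -1 ∨ ε a = 0 ∨ ε a = 1 := by
      rw [abs_le] at h1; omega
    rcases h2 with h | h | h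
    · rw [h]; simpa using (hA a).2
    · rw [h]; simpa using h0
    · rw [h]; simpa using (hA a).1

theorem exists_weights {G : Type*} [AddCommGroup G] [Fintype G] [DecidableEq G] (L : ℕ) :
    ∀ n : ℕ, (2 * n + 1) ^ L < Fintype.card G →
      ∃ g : Fin n → G, ∀ ε : Fin n → ℤ, (∀ i, |ε i| ≤ 1) → (∃ i, ε i ≠ 0) →
        (univ.filter fun i => ε i ≠ 0).card ≤ L + 1 → ∑ i, ε i • g i ≠ 0 := by
  classical
  intro n
  induction n with
  | zero =>
    intro _
    refine ⟨fun _ => 0, ?_⟩
    rintro ε _ ⟨i, _⟩
    exact i.elim0
  | succ n ih =>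
    intro hn
    obtain ⟨g, hg⟩ := ih (lt_of_le_of_lt (Nat.pow_le_pow_left (by omega) L) hn)
    set A : Finset G := insert 0 (univ.image g ∪ univ.image (fun i => -g i)) with hA
    have hAcard : A.card ≤ 2 * n + 1 := by
      rw [hA]
      refine (Finset.card_insert_le _ _).trans ?_
      have h1 : (univ.image g ∪ univ.image (fun i => -g i)).card ≤ n + n :=
        (Finset.card_union_le _ _).trans (add_le_add
          (Finset.card_image_le.trans (by simp)) (Finset.card_image_le.trans (by simp)))
      omega
    have hcard : (L • A).card < Fintype.card G := by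
      refine lt_of_le_of_lt ?_ hn
      refine (Finset.card_nsmul_le).trans ?_
      exact Nat.pow_le_pow_left (by omega) L
    obtain ⟨z, hz⟩ : ∃ z, z ∉ L • A := by
      by_contra hcon
      push Not at hcon
      have : L • A = univ := Finset.eq_univ_iff_forall.2 hcon
      rw [this, Finset.card_univ] at hcard
      exact lt_irrefl _ hcard
    refine ⟨Fin.cons z g, ?_⟩
    intro ε hε hne hcd hsum
    rw [Fin.sum_univ_succ] at hsum
    simp only [Fin.cons_zero, Fin.cons_succ] at hsum
    have h0A : (0 : G) ∈ A := by rw [hA]; exact Finset.mem_insert_self _ _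
    have hgA : ∀ i, g i ∈ A ∧ -g i ∈ A := by
      intro i
      rw [hA]
      constructor
      · exact Finset.mem_insert_of_mem (Finset.mem_union_left _ (Finset.mem_image_of_mem _ (mem_univ i)))
      · exact Finset.mem_insert_of_mem (Finset.mem_union_right _
          (Finset.mem_image_of_mem (fun i => -g i) (mem_univ i)))
    have htail : (univ.filter fun i : Fin n => ε i.succ ≠ 0).card + (if ε 0 ≠ 0 then 1 else 0)
        = (univ.filter fun i : Fin (n + 1) => ε i ≠ 0).card := by
      rw [Finset.card_filter, Finset.card_filter, Fin.sum_univ_succ]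
      omega
    by_cases hz0 : ε 0 = 0
    · rw [hz0] at hsum
      simp only [zero_smul, zero_add] at hsum
      refine hg (fun i => ε i.succ) (fun i => hε i.succ) ?_ ?_ hsum
      · obtain ⟨i, hi⟩ := hne
        refine Fin.cases (fun h => absurd hz0 h) (fun j h => ⟨j, h⟩) i hi
      · simp only [hz0, ne_eq, not_true_eq_false, if_false, add_zero] at htail
        simp only [ne_eq] at hcd ⊢
        omega
    · have hcd' : (univ.filter fun i : Fin n => ε i.succ ≠ 0).card ≤ L := by
        rw [if_pos hz0] at htail
        omega
      have h2 : ε 0 = -1 ∨ ε 0 = 1 := by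
        have := hε 0
        rw [abs_le] at this; omega
      apply hz
      rcases h2 with h | h
      · -- z = sum
        have hzeq : z = ∑ i ∈ univ.filter (fun i : Fin n => ε i.succ ≠ 0), ε i.succ • g i := by
          rw [Finset.sum_filter_of_ne (p := fun i : Fin n => ε i.succ ≠ 0)]
          · rw [h] at hsum
            simp only [neg_smul, one_smul] at hsum
            have := neg_add_eq_zero.1 hsum
            exact this
          · intro i _ hi h0
            apply hi
            rw [h0, zero_smul]
        rw [hzeq]
        exact sum_mem_nsmul g (fun i => ε i.succ) (fun i => hε i.succ) A h0A hgA _ L hcd'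
      · have hzeq : z = ∑ i ∈ univ.filter (fun i : Fin n => ε i.succ ≠ 0), (-ε i.succ) • g i := by
          rw [Finset.sum_filter_of_ne (p := fun i : Fin n => ε i.succ ≠ 0)]
          · rw [h] at hsum
            simp only [one_smul] at hsum
            have := eq_neg_of_add_eq_zero_left hsum
            rw [this, ← Finset.sum_neg_distrib]
            exact Finset.sum_congr rfl fun i _ => (neg_smul _ _).symm
          · intro i _ hi h0
            apply hi
            rw [h0, neg_zero, zero_smul]
        rw [hzeq]
        refine sum_mem_nsmul g (fun i => -ε i.succ) (fun i => ?_) A h0A hgA _ L hcd'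
        rw [abs_neg]; exact hε i.succ

end Pool.Agent.LF27
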