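import Pool.Agent.LF27.Colour
import Pool.Agent.LF27.Weights
import Pool.Agent.LF27.Lines
import Pool.Agent.LF27.Moment
import Pool.Agent.LF27.Count

/-!
# Large subsets of `{0,…,k-1}^n` with no `k` points on a real line
-/

set_option autoImplicit false

namespace Pool.Agent.LF27

open Finset

/-- The weighted sum of the coordinates. -/
def Phi {n k : ℕ} {G : Type*} [AddCommGroup G] (g : Fin n → G) (x : Fin n → Fin k) : G :=
  ∑ i, ((x i : ℕ) : ℤ) • g i

/-- The statistic whose windows are line-free. -/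
def stat {n k d M q : ℕ} (hq : 0 < q) (L : ℕ) (g : Fin n → (Fin d → ZMod M))
    (x : Fin n → Fin k) : ℕ := ext x + L * (E hq (Phi g x) + 1)

/-- A window of `stat` contains no `k` collinear points. -/
theorem window_free {n k d M : ℕ} (hk : 3 ≤ k) (L : ℕ) [NeZero M]
    (hq : 0 < k - 1) (hco : Nat.Coprime (k - 1) M)
    (g : Fin n → (Fin d → ZMod M))
    (hg : ∀ ε : Fin n → ℤ, (∀ i, |ε i| ≤ 1) → (∃ i, ε i ≠ 0) →
        (univ.filter fun i => ε i ≠ 0).card ≤ L + 1 → ∑ i, ε i • g i ≠ 0)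
    (s₀ : ℕ) (T : Finset (Fin n → Fin k)) (hcard : T.card = k)
    (hT : ∀ x ∈ T, s₀ ≤ stat hq L g x ∧ stat hq L g x < s₀ + L) :
    ¬ Collinear ℝ (emb '' (T : Set (Fin n → Fin k))) := by
  classical
  intro hcol
  obtain ⟨x₀, hx₀, x₁, hx₁, x₂, hx₂, ε, ⟨i₀, hi₀⟩, hline⟩ := line_of_collinear hk T hcard hcol
  have h0 := hT x₀ hx₀
  have h1 := hT x₁ hx₁
  have h2 := hT x₂ hx₂
  set r := (univ.filter fun i => ε i ≠ 0).card with hr
  have hrpos : 0 < r := Finset.card_pos.2 ⟨i₀, by simp [hi₀]⟩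
  -- extreme coordinates
  have hext : ∀ y : Fin n → Fin k, ext y = ∑ i, if Ext k (y i) then 1 else 0 := by
    intro y; unfold ext; rw [Finset.card_filter]
  have hs1 : ext x₀ = ext x₁ + r := by
    rw [hext, hext, hr, Finset.card_filter, ← Finset.sum_add_distrib]
    refine Finset.sum_congr rfl fun i _ => ?_
    rcases hline i with ⟨he, ha, hb⟩ | ⟨he, ha, hb, hc⟩ | ⟨he, ha, hb, hc⟩
    · rw [ha, he]; simp
    · have hE0 : Ext k (x₀ i) := by unfold Ext; omega
      have hE1 : ¬ Ext k (x₁ i) := by unfold Ext; omega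
      rw [if_pos hE0, if_neg hE1, he]; simp
    · have hE0 : Ext k (x₀ i) := by unfold Ext; omega
      have hE1 : ¬ Ext k (x₁ i) := by unfold Ext; omega
      rw [if_pos hE0, if_neg hE1, he]; simp
  have hs2 : ext x₂ = ext x₀ := by
    rw [hext, hext]
    refine Finset.sum_congr rfl fun i _ => ?_
    rcases hline i with ⟨he, ha, hb⟩ | ⟨he, ha, hb, hc⟩ | ⟨he, ha, hb, hc⟩
    · rw [hb]
    · have hE0 : Ext k (x₀ i) := by unfold Ext; omega
      have hE2 : Ext k (x₂ i) := by unfold Ext; omega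
      rw [if_pos hE0, if_pos hE2]
    · have hE0 : Ext k (x₀ i) := by unfold Ext; omega
      have hE2 : Ext k (x₂ i) := by unfold Ext; omega
      rw [if_pos hE0, if_pos hE2]
  -- weighted sums
  set b : Fin d → ZMod M := ∑ i, ε i • g i with hb
  have hΦ1 : Phi g x₁ = Phi g x₀ + b := by
    unfold Phi
    rw [hb, ← Finset.sum_add_distrib]
    refine Finset.sum_congr rfl fun i _ => ?_
    rw [← add_smul]
    congr 1
    rcases hline i with ⟨he, ha, hb⟩ | ⟨he, ha, hb, hc⟩ | ⟨he, ha, hb, hc⟩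
    · rw [ha, he]; simp
    · omega
    · omega
  have hΦ2 : Phi g x₂ = Phi g x₀ + ((k - 1 : ℕ) : ℤ) • b := by
    unfold Phi
    rw [hb, Finset.smul_sum, ← Finset.sum_add_distrib]
    refine Finset.sum_congr rfl fun i _ => ?_
    rw [smul_smul, ← add_smul]
    congr 1
    rcases hline i with ⟨he, ha, hb⟩ | ⟨he, ha, hb, hc⟩ | ⟨he, ha, hb, hc⟩
    · rw [hb, he]; simp
    · rw [he]; omega
    · rw [he]; omega
  have hε : ∀ i, |ε i| ≤ 1 := by
    intro i
    rcases hline i with ⟨he, _⟩ | ⟨he, _⟩ | ⟨he, _⟩ <;> rw [he] <;> norm_num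
  have hunit : IsUnit (((k - 1 : ℕ)) : ZMod M) := (ZMod.isUnit_iff_coprime (k - 1) M).2 hco
  have hbj : ∀ j, (((k - 1 : ℕ) : ℤ) • b) j = ((k - 1 : ℕ) : ZMod M) * b j := by
    intro j
    rw [Pi.smul_apply, zsmul_eq_mul, Int.cast_natCast]
  unfold stat at h0 h1 h2
  -- equal colours at the ends
  have hE02 : E hq (Phi g x₀) = E hq (Phi g x₂) := by
    rw [hs2] at h2
    rcases lt_trichotomy (E hq (Phi g x₀)) (E hq (Phi g x₂)) with h | h | h
    · exfalso
      have : L * (E hq (Phi g x₀) + 1) + L ≤ L * (E hq (Phi g x₂) + 1) := by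
        calc L * (E hq (Phi g x₀) + 1) + L = L * (E hq (Phi g x₀) + 1 + 1) := by ring
          _ ≤ _ := Nat.mul_le_mul_left _ (by omega)
      omega
    · exact h
    · exfalso
      have : L * (E hq (Phi g x₂) + 1) + L ≤ L * (E hq (Phi g x₀) + 1) := by
        calc L * (E hq (Phi g x₂) + 1) + L = L * (E hq (Phi g x₂) + 1 + 1) := by ring
          _ ≤ _ := Nat.mul_le_mul_left _ (by omega)
      omega
  have hE01 : E hq (Phi g x₀) ≤ E hq (Phi g x₁) := by
    by_contra hlt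
    push Not at hlt
    have : L * (E hq (Phi g x₁) + 1) + L ≤ L * (E hq (Phi g x₀) + 1) := by
      calc L * (E hq (Phi g x₁) + 1) + L = L * (E hq (Phi g x₁) + 1 + 1) := by ring
        _ ≤ _ := Nat.mul_le_mul_left _ (by omega)
    omega
  have hceq : Phi g x₀ = Phi g x₂ := by
    by_contra hne
    have hq1 : 1 < k - 1 := by omega
    have hkey := E_key (q := k - 1) hq1 hco (c := Phi g x₀) (e := Phi g x₂) (y := Phi g x₁) hne
      hE02 (by
        intro j
        rw [hΦ1, hΦ2, Pi.add_apply, Pi.add_apply, hbj j]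
        ring)
    exact absurd hE01 (not_le.2 hkey)
  have hb0 : b = 0 := by
    rw [hΦ2] at hceq
    have h3 : ((k - 1 : ℕ) : ℤ) • b = 0 := by
      have := hceq.symm
      rwa [add_eq_left] at this
    funext j
    have h4 := congrFun h3 j
    rw [hbj j, Pi.zero_apply] at h4
    exact (hunit.mul_right_eq_zero).1 h4
  have hEq : E hq (Phi g x₁) = E hq (Phi g x₀) := by rw [hΦ1, hb0, add_zero]
  rw [hEq] at h1
  have hrL : r ≤ L + 1 := by omega
  exact hg ε hε ⟨i₀, hi₀⟩ hrL hb0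

theorem main (k : ℕ) (hk : 3 ≤ k) (c : ℝ) (_hc : 0 < c) :
    ∃ N : ℕ, ∀ n : ℕ, N ≤ n → ∃ S : Finset (Fin n → Fin k),
      c * (k : ℝ) ^ n / Real.sqrt (n : ℝ) ≤ (S.card : ℝ) ∧
      ∀ T : Finset (Fin n → Fin k), T ⊆ S → T.card = k →
        ¬ Collinear ℝ (emb '' (T : Set (Fin n → Fin k))) := by
  classical
  set L : ℕ := ⌈4 * c⌉₊ + 1 with hL
  have hL4 : 4 * c ≤ (L : ℝ) := by
    have := Nat.le_ceil (4 * c)
    rw [hL]; push_cast; linarith
  have hL0 : L ≠ 0 := by rw [hL]; omega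
  have hq : 0 < k - 1 := by omega
  obtain ⟨N, hN⟩ := exists_modulus (k - 1) (8 * L) L hq
  refine ⟨N, fun n hn => ?_⟩
  obtain ⟨hn0, M, hM0, hco, hM8, hsqrt⟩ := hN n hn
  have : NeZero M := ⟨hM0.ne'⟩
  have hcardG : (2 * n + 1) ^ L < Fintype.card (Fin (8 * L) → ZMod M) := by
    rw [Fintype.card_fun, ZMod.card, Fintype.card_fin, pow_mul]
    exact Nat.pow_lt_pow_left hM8 hL0
  obtain ⟨g, hg⟩ := exists_weights L n hcardG
  set K' : ℕ := (k - 1) ^ (8 * L) * (8 * L * M ^ 2 + 1) with hK'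
  obtain ⟨s₀, hs₀⟩ := exists_window (typ n k) (fun x => ext x) (fun x => stat hq L g x) L K'
    (2 * (n : ℝ) / k) (Real.sqrt n) (Real.sqrt_nonneg _) (by positivity)
    (fun x hx => typ_bounds (by omega) hx)
    (fun x _ => by
      unfold stat
      have h1 : E hq (Phi g x) + 1 ≤ K' := E_bound hq (Phi g x)
      constructor
      · have : L * 1 ≤ L * (E hq (Phi g x) + 1) := Nat.mul_le_mul_left _ (by omega)
        omega
      · exact Nat.add_le_add_left (Nat.mul_le_mul_left _ h1) _)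
  refine ⟨univ.filter fun x => s₀ ≤ stat hq L g x ∧ stat hq L g x < s₀ + L, ?_, ?_⟩
  · set A := univ.filter fun x : Fin n → Fin k => s₀ ≤ stat hq L g x ∧ stat hq L g x < s₀ + L
      with hA
    have hsn : 0 < Real.sqrt n := Real.sqrt_pos.2 (by exact_mod_cast hn0)
    have htyp : (3 : ℝ) * (k : ℝ) ^ n ≤ 4 * ((typ n k).card : ℝ) := by
      exact_mod_cast card_typ (by omega) hn0
    have hden : 2 * Real.sqrt n + (L : ℝ) * K' + 1 ≤ 3 * Real.sqrt n := by
      have : (L : ℝ) * (K' : ℝ) + 1 ≤ Real.sqrt n := hsqrt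
      linarith
    rw [div_le_iff₀ hsn]
    have h1 : (L : ℝ) * (typ n k).card ≤ (A.card : ℝ) * (3 * Real.sqrt n) :=
      hs₀.trans (mul_le_mul_of_nonneg_left hden (Nat.cast_nonneg _))
    have h2 : (L : ℝ) * (3 * (k : ℝ) ^ n) ≤ (L : ℝ) * (4 * ((typ n k).card : ℝ)) :=
      mul_le_mul_of_nonneg_left htyp (Nat.cast_nonneg _)
    have h3 : 4 * c * (3 * (k : ℝ) ^ n) ≤ (L : ℝ) * (3 * (k : ℝ) ^ n) :=
      mul_le_mul_of_nonneg_right hL4 (by positivity)
    nlinarith
  · intro T hTS hTcard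
    refine window_free hk L hq hco g hg s₀ T hTcard fun x hx => ?_
    have := hTS hx
    rw [Finset.mem_filter] at this
    exact this.2

end Pool.Agent.LF27
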